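import Pool.Agent.MWG.Stmts

/-!
# Block MWG, row CBN: normal form of a two letter word
-/

set_option autoImplicit false

namespace Pool.Agent.MWG.H59

open Pool.Agent.Helper14_MV Pool.Agent.Helper2_MV Pool.Agent.MVO Pool.Agent.MWL Pool.Agent.MWS
open Pool.Agent.MWG

theorem eqt_trans_symm {k : ℕ} {a b c : ℕ → ℕ} (h1 : Eqt k a b) (h2 : Eqt k c b) : Eqt k a c :=
  fun j hj => ⟨(h1 j hj).1.trans (h2 j hj).1.symm, (h1 j hj).2.trans (h2 j hj).2.symm⟩

theorem lf_uniq {a : ℕ → ℕ} {i j : ℕ} (h1 : Lf a i) (h2 : Lf a j) : i = j := by
  rcases Nat.lt_trichotomy i j with h | h | h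
  · have h3 := h2.2 i h
    have h4 := h1.1
    omega
  · exact h
  · have h3 := h1.2 j h
    have h4 := h2.1
    omega

theorem cbn (hEQV : EqvStmt) (hNFT : NftStmt) (hCBT : CbtStmt) : CbnStmt := by
  intro β hβ k B a b i l hB h01 ha hb hR hl hx hy
  obtain ⟨hO, hT, h0, h1⟩ := hCBT k a b i l hR hl
  have hS : Sms k B (cb a b i l) := by
    intro c
    by_cases hc0 : c = 0
    · subst hc0
      exact eqt_trans_symm ha h0
    · by_cases hc1 : c = 1
      · subst hc1
        exact eqt_trans_symm hb h1
      · intro j hj
        have e1 : ty B c j = 0 := by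
          unfold ty
          apply List.count_eq_zero_of_not_mem
          intro h
          rcases h01 j hj c h with h | h
          · exact hc0 h
          · exact hc1 h
        have e2 : ty (cb a b i l) c j = 0 := by
          unfold ty
          apply List.count_eq_zero_of_not_mem
          intro h
          rcases hT j hj c h with h | h
          · exact hc0 h
          · exact hc1 h
        refine ⟨by rw [e1, e2], ?_⟩
        unfold Lf
        rw [e1, e2]
        constructor
        · rintro ⟨h, _⟩
          omega
        · rintro ⟨h, _⟩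
          omega
  have hv : Vis k (ty B 0) (ty B 1) i := ((hEQV k _ _ _ _ ha hb).1 i).2 hR.vis
  have hcb : cb a b i l i = l := by
    unfold cb
    rw [if_pos rfl]
  refine hNFT β β hβ (fun _ _ h => h) k B (cb a b i l) hB hO hS ?_
  intro x y i' hxy hvis
  have hx' : x = 0 ∨ x = 1 := by
    apply h01 i' hvis.1
    rw [← List.count_pos_iff]
    have h := hvis.2.1.1
    unfold ty at h
    omega
  have hy' : y = 0 ∨ y = 1 := by
    apply h01 i' hvis.1
    rw [← List.count_pos_iff]
    have h := hvis.2.2.1
    unfold ty at h
    omega
  rcases hx' with rfl | rfl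
  · rcases hy' with rfl | rfl
    · exact absurd rfl hxy
    · have hi : i' = i := lf_uniq hvis.2.1 hv.2.1
      subst hi
      rw [hcb]
      exact ⟨fun h => absurd hx h, fun h => absurd hy h⟩
  · rcases hy' with rfl | rfl
    · have hi : i' = i := by
        rcases Nat.lt_trichotomy i' i with h | h | h
        · have h3 := hvis.2.2.2 i h hv.1
          have h4 := hv.2.1.1
          have h5 := hv.2.2.1
          rcases h3 with h3 | h3
          · exact absurd h3 h5
          · omega
        · exact h
        · have h3 := hv.2.2.2 i' h hvis.1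
          have h4 := hvis.2.1.1
          have h5 := hvis.2.2.1
          rcases h3 with h3 | h3
          · exact absurd h3 h5
          · omega
      subst hi
      rw [hcb]
      exact ⟨fun h => absurd hy h, fun h => absurd hx h⟩
    · exact absurd rfl hxy

end Pool.Agent.MWG.H59
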